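import Pool.Agent.H83.UE.Targets3

/-!
# MP_75a732_an, board `udb_modules`, row HFB: bound for the Hilbert function
-/

set_option autoImplicit false

open Finset MvPolynomial
open Pool.Agent.H83.UE

namespace Pool.Agent.H45.UDB

section

variable {n : ℕ}

/-- the ideal of the polynomials which vanish on the common zeros of `𝓖` -/
def KI (𝓖 : Set (MvPolynomial (Fin n) ℂ)) : Ideal (MvPolynomial (Fin n) ℂ) where
  carrier := {p | ∀ a : Fin n → ℂ, (∀ F ∈ 𝓖, eval a F = 0) → eval a p = 0}
  zero_mem' a _ := map_zero _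
  add_mem' {p q} hp hq a ha := by rw [map_add, hp a ha, hq a ha, add_zero]
  smul_mem' p q hq a ha := by rw [smul_eq_mul, map_mul, hq a ha, mul_zero]

theorem hc_mul_mem (J : Ideal (MvPolynomial (Fin n) ℂ)) (f g : MvPolynomial (Fin n) ℂ)
    (h : ∀ j, homogeneousComponent j g ∈ J) (M : ℕ) : homogeneousComponent M (f * g) ∈ J := by
  have e : f * g = ∑ i ∈ range (f.totalDegree + 1), ∑ j ∈ range (g.totalDegree + 1),
      homogeneousComponent i f * homogeneousComponent j g := by
    rw [← Finset.sum_mul_sum, sum_homogeneousComponent, sum_homogeneousComponent]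
  rw [e, map_sum]
  refine Ideal.sum_mem _ fun i _ => ?_
  rw [map_sum]
  refine Ideal.sum_mem _ fun j _ => ?_
  rw [homogeneousComponent_of_mem ((mem_homogeneousSubmodule _ _).2
    ((homogeneousComponent_isHomogeneous i f).mul (homogeneousComponent_isHomogeneous j g)))]
  split_ifs
  · exact J.mul_mem_left _ (h j)
  · exact J.zero_mem

theorem hc_mul_lin (c L : MvPolynomial (Fin n) ℂ) (hL : L.IsHomogeneous 1) (M : ℕ) :
    ∃ c' : MvPolynomial (Fin n) ℂ, c'.IsHomogeneous (M - 1) ∧
      homogeneousComponent M (c * L) = c' * L := by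
  refine ⟨∑ i ∈ range (c.totalDegree + 1), if M = i + 1 then homogeneousComponent i c else 0,
    ?_, ?_⟩
  · refine IsHomogeneous.sum _ _ _ fun i _ => ?_
    split_ifs with h
    · have : M - 1 = i := by omega
      rw [this]
      exact homogeneousComponent_isHomogeneous i c
    · exact isHomogeneous_zero _ _ _
  · conv_lhs => rw [← sum_homogeneousComponent (φ := c)]
    rw [Finset.sum_mul, Finset.sum_mul, map_sum]
    refine Finset.sum_congr rfl fun i _ => ?_
    rw [homogeneousComponent_of_mem ((mem_homogeneousSubmodule _ _).2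
      ((homogeneousComponent_isHomogeneous i c).mul hL))]
    split_ifs
    · rfl
    · rw [zero_mul]

theorem exists_power (𝓖 : Set (MvPolynomial (Fin n) ℂ)) (h𝓖 : ∀ F ∈ 𝓖, ∃ N, F.IsHomogeneous N)
    {r : ℕ} (L : Fin r → MvPolynomial (Fin n) ℂ) (hL : ∀ i, (L i).IsHomogeneous 1)
    (h0 : ∀ a : Fin n → ℂ, (∀ F ∈ 𝓖, eval a F = 0) → (∀ i, eval a (L i) = 0) → a = 0) :
    ∃ M, 1 ≤ M ∧ ∀ i : Fin n, ∃ c : Fin r → MvPolynomial (Fin n) ℂ,
      (∀ j, (c j).IsHomogeneous (M - 1)) ∧ X i ^ M - ∑ j, c j * L j ∈ KI 𝓖 := by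
  set I : Ideal (MvPolynomial (Fin n) ℂ) := Ideal.span (𝓖 ∪ Set.range L) with hI
  have h1 : ∀ i : Fin n, (X i : MvPolynomial (Fin n) ℂ) ∈ I.radical := by
    intro i
    rw [← vanishingIdeal_zeroLocus_eq_radical (K := ℂ) I]
    intro a ha
    have h2 : a = 0 := by
      refine h0 a (fun F hF => ?_) (fun j => ?_)
      · rw [← MvPolynomial.coe_aeval_eq_eval]
        exact ha F (Ideal.subset_span (Or.inl hF))
      · rw [← MvPolynomial.coe_aeval_eq_eval]
        exact ha (L j) (Ideal.subset_span (Or.inr ⟨j, rfl⟩))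
    rw [h2]
    simp
  choose m hm using h1
  refine ⟨∑ i, m i + 1, by omega, fun i => ?_⟩
  have h2 : (X i : MvPolynomial (Fin n) ℂ) ^ (∑ i, m i + 1) ∈ I := by
    have h3 : m i ≤ ∑ i, m i := Finset.single_le_sum (fun _ _ => Nat.zero_le _) (mem_univ i)
    have h4 : (X i : MvPolynomial (Fin n) ℂ) ^ (∑ i, m i + 1) =
        X i ^ (∑ i, m i + 1 - m i) * X i ^ m i := by
      rw [← pow_add]
      congr 1
      omega
    rw [h4]
    exact I.mul_mem_left _ (hm i)
  set M := ∑ i, m i + 1 with hM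
  rw [hI, Ideal.span_union, Submodule.mem_sup] at h2
  obtain ⟨g, hg, h, hh, hgh⟩ := h2
  obtain ⟨c, hc⟩ := Ideal.mem_span_range_iff_exists_fun.1 hh
  have hg' : ∀ M, homogeneousComponent M g ∈ KI 𝓖 := by
    refine Submodule.span_induction
      (p := fun g _ => ∀ M, homogeneousComponent M g ∈ KI 𝓖) ?_ ?_ ?_ ?_ hg
    · intro F hF M
      obtain ⟨N, hN⟩ := h𝓖 F hF
      rw [homogeneousComponent_of_mem ((mem_homogeneousSubmodule _ _).2 hN)]
      split_ifs
      · exact fun a ha => ha F hF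
      · exact zero_mem _
    · intro M
      rw [map_zero]
      exact zero_mem _
    · intro x y _ _ hx hy M
      rw [map_add]
      exact add_mem (hx M) (hy M)
    · intro f x _ hx M
      rw [smul_eq_mul]
      exact hc_mul_mem _ f x hx M
  choose c' hc1 hc2 using fun j => hc_mul_lin (c j) (L j) (hL j) M
  refine ⟨c', hc1, ?_⟩
  have h5 : (X i : MvPolynomial (Fin n) ℂ) ^ M =
      homogeneousComponent M g + ∑ j, c' j * L j := by
    have h6 : (X i : MvPolynomial (Fin n) ℂ) ^ M =
        homogeneousComponent M ((X i : MvPolynomial (Fin n) ℂ) ^ M) :=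
      (homogeneousComponent_eq_self (isHomogeneous_X_pow i M)).symm
    rw [h6, ← hgh, ← hc, map_add, map_sum]
    congr 1
    exact Finset.sum_congr rfl fun j _ => hc2 j
  rw [h5, add_sub_cancel_right]
  exact hg' M

theorem exists_step (𝓖 : Set (MvPolynomial (Fin n) ℂ)) {r : ℕ}
    (L : Fin r → MvPolynomial (Fin n) ℂ) (M : ℕ) (hM : 1 ≤ M)
    (hX : ∀ i : Fin n, ∃ c : Fin r → MvPolynomial (Fin n) ℂ,
      (∀ j, (c j).IsHomogeneous (M - 1)) ∧ X i ^ M - ∑ j, c j * L j ∈ KI 𝓖)
    (t : ℕ) (ht : n * M ≤ t) (p : MvPolynomial (Fin n) ℂ) (hp : p.IsHomogeneous (t + 1)) :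
    ∃ P : Fin r → MvPolynomial (Fin n) ℂ, (∀ j, (P j).IsHomogeneous t) ∧
      p - ∑ j, L j * P j ∈ KI 𝓖 := by
  have h1 : ∀ s ∈ p.support, ∃ P : Fin r → MvPolynomial (Fin n) ℂ,
      (∀ j, (P j).IsHomogeneous t) ∧ monomial s (coeff s p) - ∑ j, L j * P j ∈ KI 𝓖 := by
    intro s hs
    have hdeg : s.degree = t + 1 := by
      by_contra hne
      exact (mem_support_iff.1 hs) (hp.coeff_eq_zero hne)
    have h2 : ∃ i, M ≤ s i := by
      by_contra hcon
      push Not at hcon
      have h3 : s.degree ≤ n * M := by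
        rw [Finsupp.degree_eq_sum]
        refine (Finset.sum_le_card_nsmul _ _ M fun i _ => (hcon i).le).trans ?_
        rw [Finset.card_univ, Fintype.card_fin, smul_eq_mul]
      omega
    obtain ⟨i, hi⟩ := h2
    obtain ⟨c, hc1, hc2⟩ := hX i
    have hle : Finsupp.single i M ≤ s := Finsupp.single_le_iff.2 hi
    have hs2 : s = Finsupp.single i M + (s - Finsupp.single i M) :=
      (add_tsub_cancel_of_le hle).symm
    have hdeg2 : M + (s - Finsupp.single i M).degree = t + 1 := by
      have h4 := congrArg Finsupp.degree hs2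
      rw [map_add, Finsupp.degree_single, hdeg] at h4
      exact h4.symm
    have hmon : monomial s (coeff s p) =
        X i ^ M * monomial (s - Finsupp.single i M) (coeff s p) := by
      rw [X_pow_eq_monomial, monomial_mul, one_mul, ← hs2]
    refine ⟨fun j => c j * monomial (s - Finsupp.single i M) (coeff s p), fun j => ?_, ?_⟩
    · have h5 := (hc1 j).mul (isHomogeneous_monomial (coeff s p) (rfl :
        (s - Finsupp.single i M).degree = _))
      have h6 : M - 1 + (s - Finsupp.single i M).degree = t := by omega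
      rw [h6] at h5
      exact h5
    · rw [hmon]
      have h7 : X i ^ M * monomial (s - Finsupp.single i M) (coeff s p) -
          ∑ j, L j * (c j * monomial (s - Finsupp.single i M) (coeff s p)) =
          monomial (s - Finsupp.single i M) (coeff s p) * (X i ^ M - ∑ j, c j * L j) := by
        rw [mul_sub, Finset.mul_sum, mul_comm (X i ^ M)]
        congr 1
        refine Finset.sum_congr rfl fun j _ => ?_
        ring
      rw [h7]
      exact (KI 𝓖).mul_mem_left _ hc2
  choose! P hP1 hP2 using h1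
  refine ⟨fun j => ∑ s ∈ p.support, P s j, fun j => IsHomogeneous.sum _ _ _ fun s hs =>
    hP1 s hs j, ?_⟩
  have h8 : p - ∑ j, L j * ∑ s ∈ p.support, P s j =
      ∑ s ∈ p.support, (monomial s (coeff s p) - ∑ j, L j * P s j) := by
    rw [Finset.sum_sub_distrib, support_sum_monomial_coeff, Finset.sum_comm]
    congr 1
    refine Finset.sum_congr rfl fun j _ => ?_
    rw [Finset.mul_sum]
  rw [h8]
  exact Ideal.sum_mem _ hP2

/-- the monomials -/
noncomputable def mo (e : Fin n → ℕ) : MvPolynomial (Fin n) ℂ :=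
  monomial (Finsupp.equivFunOnFinite.symm e) 1

theorem mem_span_mo (t₀ t : ℕ) (ht : t ≤ t₀) (p : MvPolynomial (Fin n) ℂ)
    (hp : p.IsHomogeneous t) :
    p ∈ Submodule.span ℂ (Set.range fun e : Fin n → Fin (t₀ + 1) => mo fun i => (e i : ℕ)) := by
  rw [← support_sum_monomial_coeff p]
  refine Submodule.sum_mem _ fun s hs => ?_
  have hdeg : s.degree = t := by
    by_contra hne
    exact (mem_support_iff.1 hs) (hp.coeff_eq_zero hne)
  have h1 : monomial s (coeff s p) = coeff s p • (monomial s 1 : MvPolynomial (Fin n) ℂ) := by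
    rw [smul_monomial, smul_eq_mul, mul_one]
  rw [h1]
  refine Submodule.smul_mem _ _ (Submodule.subset_span ⟨fun i => ⟨s i, ?_⟩, ?_⟩)
  · have h2 : s i ≤ s.degree := by
      rw [Finsupp.degree_eq_sum]
      exact Finset.single_le_sum (fun _ _ => Nat.zero_le _) (mem_univ i)
    omega
  · change monomial (Finsupp.equivFunOnFinite.symm fun i => s i) (1 : ℂ) = monomial s 1
    have h3 : (Finsupp.equivFunOnFinite.symm fun i => s i) = s := by
      ext i
      rfl
    rw [h3]

variable {r : ℕ}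

/-- the products of the linear forms and the monomials -/
def AA (L : Fin r → MvPolynomial (Fin n) ℂ) (t₀ m : ℕ) : Set (MvPolynomial (Fin n) ℂ) :=
  {q | ∃ α : Fin r → ℕ, ∑ i, α i = m ∧ ∃ e : Fin n → Fin (t₀ + 1),
    q = (∏ i, L i ^ α i) * mo fun i => (e i : ℕ)}

/-- their span modulo the vanishing polynomials -/
noncomputable def UU (𝓖 : Set (MvPolynomial (Fin n) ℂ)) (L : Fin r → MvPolynomial (Fin n) ℂ)
    (t₀ m : ℕ) : Submodule ℂ (MvPolynomial (Fin n) ℂ) :=
  Submodule.span ℂ (AA L t₀ m) ⊔ (KI 𝓖).restrictScalars ℂ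

theorem mul_mem_UU (𝓖 : Set (MvPolynomial (Fin n) ℂ)) (L : Fin r → MvPolynomial (Fin n) ℂ)
    (t₀ m : ℕ) (j : Fin r) (q : MvPolynomial (Fin n) ℂ) (hq : q ∈ UU 𝓖 L t₀ m) :
    L j * q ∈ UU 𝓖 L t₀ (m + 1) := by
  obtain ⟨y, hy, z, hz, rfl⟩ := Submodule.mem_sup.1 hq
  rw [mul_add]
  refine Submodule.add_mem _ (Submodule.mem_sup_left ?_) (Submodule.mem_sup_right ?_)
  · refine Submodule.span_induction
      (p := fun y _ => L j * y ∈ Submodule.span ℂ (AA L t₀ (m + 1))) ?_ ?_ ?_ ?_ hy
    · rintro x ⟨α, hα, e, rfl⟩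
      refine Submodule.subset_span ⟨fun i => α i + if i = j then 1 else 0, ?_, e, ?_⟩
      · rw [Finset.sum_add_distrib, hα, Finset.sum_ite_eq' univ j, if_pos (mem_univ j)]
      · have h1 : ∏ i, L i ^ (α i + if i = j then 1 else 0) = (∏ i, L i ^ α i) * L j := by
          have h2 : ∀ i, L i ^ (α i + if i = j then 1 else 0) =
              L i ^ α i * if i = j then L i else 1 := by
            intro i
            rw [pow_add]
            split_ifs
            · rw [pow_one]
            · rw [pow_zero]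
          rw [Finset.prod_congr rfl fun i _ => h2 i, Finset.prod_mul_distrib,
            Finset.prod_ite_eq' univ j, if_pos (mem_univ j)]
        rw [h1]
        ring
    · rw [mul_zero]
      exact Submodule.zero_mem _
    · intro x y _ _ hx hy
      rw [mul_add]
      exact Submodule.add_mem _ hx hy
    · intro a x _ hx
      rw [mul_smul_comm]
      exact Submodule.smul_mem _ _ hx
  · exact (KI 𝓖).mul_mem_left _ hz

theorem mem_UU (𝓖 : Set (MvPolynomial (Fin n) ℂ)) (L : Fin r → MvPolynomial (Fin n) ℂ) (M : ℕ)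
    (hM : 1 ≤ M) (hX : ∀ i : Fin n, ∃ c : Fin r → MvPolynomial (Fin n) ℂ,
      (∀ j, (c j).IsHomogeneous (M - 1)) ∧ X i ^ M - ∑ j, c j * L j ∈ KI 𝓖) :
    ∀ (m : ℕ) (p : MvPolynomial (Fin n) ℂ), p.IsHomogeneous (n * M + m) →
      p ∈ UU 𝓖 L (n * M) m := by
  intro m
  induction m with
  | zero =>
    intro p hp
    refine Submodule.mem_sup_left (Submodule.span_mono ?_ (mem_span_mo (n * M) (n * M + 0)
      (by omega) p hp))
    rintro x ⟨e, rfl⟩
    refine ⟨fun _ => 0, by simp, e, ?_⟩
    simp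
  | succ m ih =>
    intro p hp
    obtain ⟨P, hP1, hP2⟩ := exists_step 𝓖 L M hM hX (n * M + m) (by omega) p hp
    have h1 : p = ∑ j, L j * P j + (p - ∑ j, L j * P j) := by ring
    rw [h1]
    refine Submodule.add_mem _ (Submodule.sum_mem _ fun j _ => ?_) (Submodule.mem_sup_right hP2)
    exact mul_mem_UU 𝓖 L (n * M) m j (P j) (ih (P j) (hP1 j))

end

theorem pf_HFB : T_HFB := by
  intro n r hr 𝓖 h𝓖 L hL h0
  obtain ⟨r', rfl⟩ : ∃ r', r = r' + 1 := ⟨r - 1, by omega⟩
  obtain ⟨M, hM, hX⟩ := exists_power 𝓖 h𝓖 L hL h0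
  refine ⟨(n * M + 1) ^ n, fun t => ⟨(t + 1) ^ r' * (n * M + 1) ^ n, ?_, ?_⟩⟩
  · rw [Nat.add_sub_cancel]
    exact (Nat.mul_comm _ _).le
  · set E : (Fin r' → Fin (t + 1)) × (Fin n → Fin (n * M + 1)) → MvPolynomial (Fin n) ℂ :=
      fun q => (∏ i, L (Fin.castSucc i) ^ (q.1 i : ℕ)) *
        L (Fin.last r') ^ (t - n * M - ∑ i, (q.1 i : ℕ)) * mo fun i => (q.2 i : ℕ) with hE
    have hcard : Fintype.card ((Fin r' → Fin (t + 1)) × (Fin n → Fin (n * M + 1))) =
        (t + 1) ^ r' * (n * M + 1) ^ n := by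
      rw [Fintype.card_prod, Fintype.card_fun, Fintype.card_fun, Fintype.card_fin,
        Fintype.card_fin, Fintype.card_fin, Fintype.card_fin]
    set σ := Fintype.equivFinOfCardEq hcard with hσ
    refine ⟨fun i => E (σ.symm i), fun p hp => ?_⟩
    have hmem : p ∈ Submodule.span ℂ (Set.range E) ⊔ (KI 𝓖).restrictScalars ℂ := by
      rcases le_total t (n * M) with h | h
      · refine Submodule.mem_sup_left (Submodule.span_mono ?_ (mem_span_mo (n * M) t h p hp))
        rintro x ⟨e, rfl⟩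
        refine ⟨(fun _ => 0, e), ?_⟩
        have h1 : t - n * M = 0 := by omega
        simp [hE, h1]
      · obtain ⟨m, rfl⟩ := Nat.exists_eq_add_of_le h
        have h1 := mem_UU 𝓖 L M hM hX m p hp
        have hsub : AA L (n * M) m ⊆ Set.range E := ?_
        · exact (sup_le_sup_right (Submodule.span_mono hsub) _ : UU 𝓖 L (n * M) m ≤ _) h1
        rintro x ⟨α, hα, e, rfl⟩
        rw [Fin.sum_univ_castSucc] at hα
        have h2 : ∀ i : Fin r', α (Fin.castSucc i) ≤ ∑ i : Fin r', α (Fin.castSucc i) :=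
          fun i => Finset.single_le_sum (f := fun i : Fin r' => α (Fin.castSucc i))
            (fun _ _ => Nat.zero_le _) (mem_univ i)
        refine ⟨(fun i => ⟨α (Fin.castSucc i), ?_⟩, e), ?_⟩
        · have := h2 i
          omega
        · simp only [hE]
          rw [Fin.prod_univ_castSucc]
          have h3 : n * M + m - n * M - ∑ i : Fin r', α (Fin.castSucc i) = α (Fin.last r') := by
            omega
          rw [h3]
    obtain ⟨y, hy, z, hz, hyz⟩ := Submodule.mem_sup.1 hmem
    obtain ⟨c, hc⟩ := (Submodule.mem_span_range_iff_exists_fun ℂ).1 hy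
    refine ⟨fun i => c (σ.symm i), fun a ha => ?_⟩
    have h1 : eval a z = 0 := hz a ha
    rw [← hyz, map_add, h1, add_zero, ← hc, map_sum,
      ← Equiv.sum_comp σ.symm fun q => eval a (c q • E q)]
    refine Finset.sum_congr rfl fun i _ => ?_
    rw [smul_eval]

end Pool.Agent.H45.UDB
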