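import Pool.Agent.H83.UE.Targets4

set_option autoImplicit false

open Polynomial MeasureTheory Filter Topology Set
open scoped OnePoint ComplexConjugate ComplexOrder Laplacian ENNReal Nat

open Pool.Agent.H83.UE

namespace Pool.Agent.H45.UDB

theorem cd {k : ℕ} (p : MvPolynomial (Fin k) ℂ) :
    ContDiff ℂ 1 fun z : Fin k → ℂ => MvPolynomial.eval z p := by
  induction p using MvPolynomial.induction_on with
  | C a => simpa using contDiff_const
  | add p q hp hq => simpa using hp.add hq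
  | mul_X p i hp =>
    have h : ContDiff ℂ 1 fun z : Fin k → ℂ => z i := contDiff_apply ℂ ℂ i
    simpa using hp.mul h

theorem fd {k : ℕ} (p : MvPolynomial (Fin k) ℂ) (z : Fin k → ℂ) :
    HasFDerivAt (fun z : Fin k → ℂ => MvPolynomial.eval z p)
      (∑ i, MvPolynomial.eval z (MvPolynomial.pderiv i p) •
        (ContinuousLinearMap.proj i : (Fin k → ℂ) →L[ℂ] ℂ)) z := by
  induction p using MvPolynomial.induction_on with
  | C a =>
    simp only [MvPolynomial.eval_C]
    refine (hasFDerivAt_const (𝕜 := ℂ) a z).congr_fderiv ?_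
    ext v
    simp
  | add p q hp hq =>
    have h : (fun z : Fin k → ℂ => MvPolynomial.eval z (p + q)) =
        (fun z : Fin k → ℂ => MvPolynomial.eval z p) + fun z => MvPolynomial.eval z q := by
      funext z
      simp
    rw [h]
    refine (hp.add hq).congr_fderiv ?_
    ext v
    simp [add_mul, Finset.sum_add_distrib]
  | mul_X p j hp =>
    have h : HasFDerivAt (fun z : Fin k → ℂ => z j)
        (ContinuousLinearMap.proj j : (Fin k → ℂ) →L[ℂ] ℂ) z :=
      (ContinuousLinearMap.proj j : (Fin k → ℂ) →L[ℂ] ℂ).hasFDerivAt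
    have h2 := hp.mul h
    simp only [map_mul, MvPolynomial.eval_X]
    refine h2.congr_fderiv ?_
    ext v
    simp only [Derivation.leibniz, MvPolynomial.pderiv_X, smul_eq_mul, map_add, map_mul,
      MvPolynomial.eval_X, add_apply, smul_apply,
      sum_apply, ContinuousLinearMap.proj_apply]
    rw [← sub_eq_zero]
    simp only [add_mul, Finset.sum_add_distrib]
    have h3 : ∑ i, MvPolynomial.eval z p *
        MvPolynomial.eval z ((Pi.single i 1 : Fin k → MvPolynomial (Fin k) ℂ) j) * v i =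
        MvPolynomial.eval z p * v j := by
      rw [Finset.sum_eq_single j]
      · simp
      · intro b _ hb
        rw [Pi.single_eq_of_ne (Ne.symm hb)]
        simp
      · simp
    rw [h3, Finset.mul_sum]
    have h4 : ∑ i, z j * (MvPolynomial.eval z (MvPolynomial.pderiv i p) * v i) =
        ∑ i, z j * MvPolynomial.eval z (MvPolynomial.pderiv i p) * v i :=
      Finset.sum_congr rfl fun i _ => by ring
    rw [h4]
    ring

theorem loc {k : ℕ} (B : Finset (Fin k)) (G : Fin k → MvPolynomial (Fin k) ℂ)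
    (hG : ∀ j, j ∉ B → (G j).vars ⊆ insert j B) (z0 : Fin k → ℂ)
    (h0 : ∀ j, j ∉ B → MvPolynomial.eval z0 (G j) = 0 ∧
      MvPolynomial.eval z0 (MvPolynomial.pderiv j (G j)) ≠ 0) :
    ∃ (c : Fin B.card → ℂ) (r : ℝ) (ψ : (Fin B.card → ℂ) → (Fin k → ℂ)),
      DifferentiableOn ℂ ψ (Metric.ball c r) ∧ InjOn ψ (Metric.ball c r) ∧
      ψ '' Metric.ball c r ∈ 𝓝[{z : Fin k → ℂ | ∀ j, j ∉ B → MvPolynomial.eval z (G j) = 0 ∧
        MvPolynomial.eval z (MvPolynomial.pderiv j (G j)) ≠ 0}] z0 := by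
  classical
  -- the map
  set Φ : (Fin k → ℂ) → (Fin k → ℂ) := fun z j =>
    if j ∈ B then z j else MvPolynomial.eval z (G j) with hΦ
  have hcd : ContDiff ℂ 1 Φ := by
    rw [contDiff_pi]
    intro j
    by_cases hj : j ∈ B
    · simp only [hΦ, hj, if_true]
      exact contDiff_apply ℂ ℂ j
    · simp only [hΦ, hj, if_false]
      exact cd (G j)
  set D : (Fin k → ℂ) →L[ℂ] (Fin k → ℂ) := ContinuousLinearMap.pi fun j =>
    if j ∈ B then (ContinuousLinearMap.proj j : (Fin k → ℂ) →L[ℂ] ℂ)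
    else ∑ i, MvPolynomial.eval z0 (MvPolynomial.pderiv i (G j)) •
        (ContinuousLinearMap.proj i : (Fin k → ℂ) →L[ℂ] ℂ) with hD
  have hfd : HasFDerivAt Φ D z0 := by
    rw [hD, hasFDerivAt_pi]
    intro j
    by_cases hj : j ∈ B
    · simp only [hΦ, hj, if_true]
      exact (ContinuousLinearMap.proj j : (Fin k → ℂ) →L[ℂ] ℂ).hasFDerivAt
    · simp only [hΦ, hj, if_false]
      exact fd (G j) z0
  have hinj : Function.Injective D := by
    rw [injective_iff_map_eq_zero]
    intro v hv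
    have hB : ∀ j ∈ B, v j = 0 := by
      intro j hj
      have h1 := congrFun hv j
      simpa [hD, hj] using h1
    funext j
    by_cases hj : j ∈ B
    · exact hB j hj
    · have h1 := congrFun hv j
      have h2 : ∑ i, MvPolynomial.eval z0 (MvPolynomial.pderiv i (G j)) * v i = 0 := by
        simpa [hD, hj] using h1
      rw [Finset.sum_eq_single j] at h2
      · exact (mul_eq_zero.1 h2).resolve_left (h0 j hj).2
      · intro i _ hij
        by_cases hi : i ∈ B
        · rw [hB i hi, mul_zero]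
        · have h3 : i ∉ (G j).vars := by
            intro h4
            rcases Finset.mem_insert.1 (hG j hj h4) with h5 | h5
            · exact hij h5
            · exact hi h5
          rw [MvPolynomial.pderiv_eq_zero_of_notMem_vars h3, map_zero, zero_mul]
      · simp
  set De : (Fin k → ℂ) ≃L[ℂ] (Fin k → ℂ) :=
    (LinearEquiv.ofInjectiveEndo (D : (Fin k → ℂ) →ₗ[ℂ] (Fin k → ℂ)) hinj).toContinuousLinearEquiv
    with hDe
  have hfd' : HasFDerivAt Φ (De : (Fin k → ℂ) →L[ℂ] (Fin k → ℂ)) z0 := by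
    refine hfd.congr_fderiv ?_
    ext v : 1
    rfl
  have hn : (1 : WithTop ℕ∞) ≠ 0 := one_ne_zero
  set e := hcd.contDiffAt.toOpenPartialHomeomorph Φ hfd' hn with he
  have hsrc : z0 ∈ e.source := hcd.contDiffAt.mem_toOpenPartialHomeomorph_source hfd' hn
  have htgt : Φ z0 ∈ e.target := hcd.contDiffAt.image_mem_toOpenPartialHomeomorph_target hfd' hn
  have hsm : ContDiffAt ℂ 1 e.symm (Φ z0) := hcd.contDiffAt.to_localInverse hfd' hn
  have hev : ∀ᶠ w in 𝓝 (Φ z0), w ∈ e.target ∧ DifferentiableAt ℂ e.symm w := by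
    refine Filter.Eventually.and (e.open_target.mem_nhds htgt) ?_
    filter_upwards [hsm.eventually (by simp)] with w hw
    exact hw.differentiableAt one_ne_zero
  -- coordinates
  set ι : (Fin B.card → ℂ) → (Fin k → ℂ) := fun t j =>
    if h : j ∈ B then t ((B.orderIsoOfFin rfl).symm ⟨j, h⟩) else 0 with hι
  set q : (Fin k → ℂ) → (Fin B.card → ℂ) := fun z i => z (B.orderIsoOfFin rfl i) with hq
  have hιd : Differentiable ℂ ι := by
    rw [differentiable_pi]
    intro j
    by_cases hj : j ∈ B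
    · simp only [hι, hj, dif_pos]
      fun_prop
    · simp only [hι, hj, dif_neg, not_false_eq_true]
      fun_prop
  have hqι : ∀ t, q (ι t) = t := by
    intro t
    funext i
    have h1 : ((B.orderIsoOfFin rfl i : B) : Fin k) ∈ B := (B.orderIsoOfFin rfl i).2
    simp only [hq, hι]
    rw [dif_pos h1]
    exact congrArg t ((B.orderIsoOfFin rfl).symm_apply_apply i)
  have hιq : ∀ z, (∀ j ∉ B, MvPolynomial.eval z (G j) = 0) → ι (q z) = Φ z := by
    intro z hz
    funext j
    by_cases hj : j ∈ B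
    · simp only [hι, hq, hΦ, hj, dif_pos, if_true]
      simp
    · simp only [hι, hΦ, hj, dif_neg, not_false_eq_true, if_false]
      exact (hz j hj).symm
  have hqc : Continuous q := by
    refine continuous_pi fun i => ?_
    exact continuous_apply _
  have h1 : ∀ᶠ t in 𝓝 (q z0), ι t ∈ e.target ∧ DifferentiableAt ℂ e.symm (ι t) := by
    have h2 : Tendsto ι (𝓝 (q z0)) (𝓝 (Φ z0)) := by
      rw [← hιq z0 fun j hj => (h0 j hj).1]
      exact hιd.continuous.tendsto _
    exact h2.eventually hev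
  obtain ⟨r, hr, hball⟩ := Metric.eventually_nhds_iff_ball.1 h1
  refine ⟨q z0, r, fun t => e.symm (ι t), ?_, ?_, ?_⟩
  · intro t ht
    exact ((hball t ht).2.comp t (hιd t)).differentiableWithinAt
  · intro t ht t' ht' h
    have h2 := e.symm.injOn (hball t ht).1 (hball t' ht').1 h
    rw [← hqι t, h2, hqι]
  · refine mem_nhdsWithin.2 ⟨e.source ∩ q ⁻¹' Metric.ball (q z0) r,
      e.open_source.inter (Metric.isOpen_ball.preimage hqc), ⟨hsrc, Metric.mem_ball_self hr⟩, ?_⟩
    rintro z ⟨⟨hz1, hz2⟩, hz3⟩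
    refine ⟨q z, hz2, ?_⟩
    change e.symm (ι (q z)) = z
    rw [hιq z fun j hj => (hz3 j hj).1]
    exact e.left_inv hz1

theorem pf_PRB : T_PRB := by
  classical
  intro k B G hG
  have hkey : ∀ z0 : Fin k → ℂ, ∃ (c : Fin B.card → ℂ) (r : ℝ)
      (ψ : (Fin B.card → ℂ) → (Fin k → ℂ)),
      (DifferentiableOn ℂ ψ (Metric.ball c r) ∧ InjOn ψ (Metric.ball c r)) ∧
      (z0 ∈ {z : Fin k → ℂ | ∀ j, j ∉ B → MvPolynomial.eval z (G j) = 0 ∧
        MvPolynomial.eval z (MvPolynomial.pderiv j (G j)) ≠ 0} →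
      ψ '' Metric.ball c r ∈ 𝓝[{z : Fin k → ℂ | ∀ j, j ∉ B → MvPolynomial.eval z (G j) = 0 ∧
        MvPolynomial.eval z (MvPolynomial.pderiv j (G j)) ≠ 0}] z0) := by
    intro z0
    by_cases h0 : z0 ∈ {z : Fin k → ℂ | ∀ j, j ∉ B → MvPolynomial.eval z (G j) = 0 ∧
        MvPolynomial.eval z (MvPolynomial.pderiv j (G j)) ≠ 0}
    · obtain ⟨c, r, ψ, h1, h2, h3⟩ := loc B G hG z0 h0
      exact ⟨c, r, ψ, ⟨h1, h2⟩, fun _ => h3⟩
    · refine ⟨0, 0, fun _ => 0, ⟨?_, ?_⟩, fun h => absurd h h0⟩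
      · rw [Metric.ball_zero]
        exact differentiableOn_empty
      · rw [Metric.ball_zero]
        exact injOn_empty _
  choose c r ψ h1 h2 using hkey
  obtain ⟨T, -, hTc, hTY⟩ := TopologicalSpace.countable_cover_nhdsWithin h2
  rcases T.eq_empty_or_nonempty with hT | hT
  · refine ⟨fun _ => c 0, fun _ => r 0, fun _ => ψ 0, fun _ => h1 0, ?_⟩
    intro z hz
    have h3 := hTY hz
    rw [hT] at h3
    simp at h3
  · obtain ⟨g, hg⟩ := hTc.exists_eq_range hT
    refine ⟨fun a => c (g a), fun a => r (g a), fun a => ψ (g a), fun a => h1 (g a), ?_⟩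
    intro z hz
    have h3 := hTY hz
    rw [mem_iUnion₂] at h3
    obtain ⟨x, hx, hzx⟩ := h3
    rw [hg] at hx
    obtain ⟨a, rfl⟩ := hx
    exact mem_iUnion.2 ⟨a, hzx⟩

end Pool.Agent.H45.UDB
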